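import Pool.Agent.LRG.StmtsC

/-!
# LRG, row KCO: a constant which is algebraic over `ℤ_p[[t]]` is algebraic over `ℤ_p`
(author helper81)
-/

set_option autoImplicit false

open Polynomial

namespace Pool.Agent.LRG.H81

theorem kco (hKC1 : CX.Kc1Stmt) : CX.KcoStmt := by
  intro p _ Ω _ _ _ D hinj hD γ hγ0 hDγ halg
  classical
  have hex : ∃ d, ∃ Q : (PowerSeries ℤ_[p])[X], Q ≠ 0 ∧ aeval γ Q = 0 ∧ Q.natDegree = d := by
    obtain ⟨Q, h1, h2⟩ := halg
    exact ⟨Q.natDegree, Q, h1, h2, rfl⟩
  obtain ⟨Q, hQ0, hQγ, hQd⟩ := Nat.find_spec hex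
  generalize hdd : Nat.find hex = d at hQd
  have hmin0 : ∀ Q' : (PowerSeries ℤ_[p])[X], aeval γ Q' = 0 → Q'.natDegree < d → Q' = 0 := by
    intro Q' h1 h2
    by_contra h3
    rw [← hdd] at h2
    exact Nat.find_min hex h2 ⟨Q', h3, h1, rfl⟩
  -- the linear independence of the powers of `γ` below `d`
  have hmin : ∀ c : ℕ → PowerSeries ℤ_[p],
      ∑ i ∈ Finset.range d, algebraMap (PowerSeries ℤ_[p]) Ω (c i) * γ ^ i = 0 →
      ∀ i < d, c i = 0 := by
    intro c hc
    have hco : ∀ m, (∑ i ∈ Finset.range d, monomial i (c i) : (PowerSeries ℤ_[p])[X]).coeff m =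
        if m < d then c m else 0 := by
      intro m
      rw [Polynomial.finsetSum_coeff]
      simp only [Polynomial.coeff_monomial]
      rw [Finset.sum_ite_eq' (Finset.range d) m c]
      simp only [Finset.mem_range]
    have hR : (∑ i ∈ Finset.range d, monomial i (c i) : (PowerSeries ℤ_[p])[X]) = 0 := by
      by_contra hne
      apply hne
      apply hmin0
      · rw [map_sum]
        simp only [Polynomial.aeval_monomial]
        exact hc
      · by_contra hlt
        have h1 := Polynomial.leadingCoeff_ne_zero.2 hne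
        rw [Polynomial.leadingCoeff, hco, if_neg hlt] at h1
        exact h1 rfl
    intro i hi
    have h2 := hco i
    rw [hR, if_pos hi, Polynomial.coeff_zero] at h2
    exact h2.symm
  have hb : Q.coeff d ≠ 0 := by
    rw [← hQd]
    exact Polynomial.leadingCoeff_ne_zero.2 hQ0
  have hsum : ∑ i ∈ Finset.range (d + 1), algebraMap (PowerSeries ℤ_[p]) Ω (Q.coeff i) * γ ^ i
      = 0 := by
    rw [Polynomial.aeval_eq_sum_range, hQd] at hQγ
    simpa only [Algebra.smul_def] using hQγ
  have hDpow : ∀ i : ℕ, D (γ ^ i) = 0 := by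
    intro i
    rw [Derivation.leibniz_pow, hDγ]
    simp
  have hsum' : ∑ i ∈ Finset.range (d + 1),
      algebraMap (PowerSeries ℤ_[p]) Ω (PowerSeries.derivative ℤ_[p] (Q.coeff i)) * γ ^ i = 0 := by
    have h1 := congrArg D hsum
    rw [map_sum, map_zero] at h1
    rw [← h1]
    refine Finset.sum_congr rfl fun i _ => ?_
    rw [Derivation.leibniz, hDpow, hD]
    simp only [smul_eq_mul, mul_zero, zero_add]
    rw [mul_comm]
  -- the relation of the coefficients
  have hrel : ∀ i, PowerSeries.derivative ℤ_[p] (Q.coeff i) * Q.coeff d =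
      Q.coeff i * PowerSeries.derivative ℤ_[p] (Q.coeff d) := by
    have h0 : ∑ i ∈ Finset.range d, algebraMap (PowerSeries ℤ_[p]) Ω
        (PowerSeries.derivative ℤ_[p] (Q.coeff i) * Q.coeff d -
          Q.coeff i * PowerSeries.derivative ℤ_[p] (Q.coeff d)) * γ ^ i = 0 := by
      have h1 : ∑ i ∈ Finset.range (d + 1), algebraMap (PowerSeries ℤ_[p]) Ω
        (PowerSeries.derivative ℤ_[p] (Q.coeff i) * Q.coeff d -
          Q.coeff i * PowerSeries.derivative ℤ_[p] (Q.coeff d)) * γ ^ i = 0 := by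
        have h2 : ∀ i, algebraMap (PowerSeries ℤ_[p]) Ω
            (PowerSeries.derivative ℤ_[p] (Q.coeff i) * Q.coeff d -
            Q.coeff i * PowerSeries.derivative ℤ_[p] (Q.coeff d)) * γ ^ i =
            algebraMap (PowerSeries ℤ_[p]) Ω (Q.coeff d) *
              (algebraMap (PowerSeries ℤ_[p]) Ω
                (PowerSeries.derivative ℤ_[p] (Q.coeff i)) * γ ^ i) -
            algebraMap (PowerSeries ℤ_[p]) Ω (PowerSeries.derivative ℤ_[p] (Q.coeff d)) *
              (algebraMap (PowerSeries ℤ_[p]) Ω (Q.coeff i) * γ ^ i) := by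
          intro i
          rw [map_sub, map_mul, map_mul]
          ring
        rw [Finset.sum_congr rfl fun i _ => h2 i, Finset.sum_sub_distrib, ← Finset.mul_sum,
          ← Finset.mul_sum, hsum, hsum']
        ring
      rw [Finset.sum_range_succ] at h1
      have h3 : PowerSeries.derivative ℤ_[p] (Q.coeff d) * Q.coeff d -
          Q.coeff d * PowerSeries.derivative ℤ_[p] (Q.coeff d) = 0 := by ring
      rw [h3, map_zero, zero_mul, add_zero] at h1
      exact h1
    have h4 := hmin _ h0
    intro i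
    rcases lt_trichotomy i d with h | h | h
    · exact sub_eq_zero.1 (h4 i h)
    · rw [h]
      ring
    · rw [Polynomial.coeff_eq_zero_of_natDegree_lt (by omega)]
      simp
  have hk := fun i => hKC1 p (Q.coeff i) (Q.coeff d) hb (hrel i)
  choose c δ hδ hcδ using hk
  have hN : ∏ i ∈ Finset.range (d + 1), δ i ≠ 0 := Finset.prod_ne_zero_iff.2 fun i _ => hδ i
  have hcN : ∀ i ∈ Finset.range (d + 1), PowerSeries.C (∏ i ∈ Finset.range (d + 1), δ i) * Q.coeff i =
      PowerSeries.C (c i * ∏ j ∈ (Finset.range (d + 1)).erase i, δ j) * Q.coeff d := by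
    intro i hi
    rw [← Finset.mul_prod_erase _ _ hi, map_mul, map_mul]
    have h1 := hcδ i
    linear_combination (PowerSeries.C (∏ j ∈ (Finset.range (d + 1)).erase i, δ j)) * h1
  have hCN : (PowerSeries.C (∏ i ∈ Finset.range (d + 1), δ i) : PowerSeries ℤ_[p]) ≠ 0 := by
    intro h
    apply hN
    exact PowerSeries.C_injective (by rw [h, map_zero])
  refine ⟨∑ i ∈ Finset.range (d + 1), monomial i
    (c i * ∏ j ∈ (Finset.range (d + 1)).erase i, δ j), ?_, ?_⟩
  · rw [Polynomial.finsetSum_coeff]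
    simp only [Polynomial.coeff_monomial]
    rw [Finset.sum_ite_eq' (Finset.range (d + 1)) 0, if_pos (Finset.mem_range.2 (Nat.succ_pos d))]
    intro h0
    have h1 := hcN 0 (Finset.mem_range.2 (Nat.succ_pos d))
    rw [h0, map_zero, zero_mul] at h1
    have ha0 : Q.coeff 0 = 0 := (mul_eq_zero.1 h1).resolve_left hCN
    rw [Finset.sum_range_succ'] at hsum
    rw [ha0, map_zero, zero_mul, add_zero] at hsum
    have h2 : γ * ∑ i ∈ Finset.range d,
        algebraMap (PowerSeries ℤ_[p]) Ω (Q.coeff (i + 1)) * γ ^ i = 0 := by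
      rw [Finset.mul_sum, ← hsum]
      refine Finset.sum_congr rfl fun i _ => ?_
      ring
    have h3 := hmin _ ((mul_eq_zero.1 h2).resolve_left hγ0)
    rcases Nat.eq_zero_or_pos d with hd | hd
    · rw [hd] at hb
      exact hb ha0
    · have h4 := h3 (d - 1) (by omega)
      rw [Nat.sub_add_cancel hd] at h4
      exact hb h4
  · rw [Polynomial.eval₂_finsetSum]
    simp only [Polynomial.eval₂_monomial, RingHom.comp_apply]
    have hb' : algebraMap (PowerSeries ℤ_[p]) Ω (Q.coeff d) ≠ 0 := fun h =>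
      hb (hinj (by rw [h, map_zero]))
    have h5 : algebraMap (PowerSeries ℤ_[p]) Ω (Q.coeff d) * ∑ i ∈ Finset.range (d + 1),
        algebraMap (PowerSeries ℤ_[p]) Ω (PowerSeries.C (c i *
          ∏ j ∈ (Finset.range (d + 1)).erase i, δ j)) * γ ^ i = 0 := by
      rw [Finset.mul_sum]
      have h6 : ∀ i ∈ Finset.range (d + 1), algebraMap (PowerSeries ℤ_[p]) Ω (Q.coeff d) *
          (algebraMap (PowerSeries ℤ_[p]) Ω (PowerSeries.C (c i *
          ∏ j ∈ (Finset.range (d + 1)).erase i, δ j)) * γ ^ i) =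
          algebraMap (PowerSeries ℤ_[p]) Ω (PowerSeries.C (∏ i ∈ Finset.range (d + 1), δ i)) *
            (algebraMap (PowerSeries ℤ_[p]) Ω (Q.coeff i) * γ ^ i) := by
        intro i hi
        have h7 := congrArg (algebraMap (PowerSeries ℤ_[p]) Ω) (hcN i hi)
        rw [map_mul, map_mul] at h7
        linear_combination (-γ ^ i) * h7
      rw [Finset.sum_congr rfl h6, ← Finset.mul_sum, hsum, mul_zero]
    exact (mul_eq_zero.1 h5).resolve_left hb'

end Pool.Agent.LRG.H81
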