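import Pool.Agent.LRG.StmtsR

noncomputable section

open Finset

namespace Pool.Agent.LRG.H81

open Pool.Agent.LRG.R

theorem sno : SnoStatement := by
  intro N m c E l S hS
  obtain ⟨g, h0, hd, hz⟩ := hS
  refine ⟨MvPolynomial.finSuccEquiv ℤ m g, ?_, ⟨?_, ?_⟩, ?_⟩
  · intro h
    exact h0 ((map_eq_zero_iff _ (MvPolynomial.finSuccEquiv ℤ m).injective).mp h)
  · rw [MvPolynomial.natDegree_finSuccEquiv]
    exact (MvPolynomial.degreeOf_le_totalDegree g 0).trans hd
  · intro i
    by_cases hi : (MvPolynomial.finSuccEquiv ℤ m g).coeff i = 0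
    · rw [hi, MvPolynomial.totalDegree_zero]
      exact Nat.zero_le _
    · have h1 := MvPolynomial.totalDegree_coeff_finSuccEquiv_add_le g i hi
      omega
  · intro x hx
    rw [ev2_int, ← MvPolynomial.eval_eq_eval_mv_eval']
    have h1 := hz x hx
    have h2 : (fun i => x ((Fin.cons l c : Fin (m + 1) → Fin N) i)) =
        (Fin.cons (x l) (fun i => x (c i)) : Fin (m + 1) → ℤ) := by
      funext i
      refine Fin.cases ?_ (fun j => ?_) i
      · simp
      · simp
    rw [h2] at h1
    exact h1

end Pool.Agent.LRG.H81
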