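import Pool.Agent.LRG.StmtsR

noncomputable section

open Finset

namespace Pool.Agent.LRG.H81

open Pool.Agent.LRG.R

theorem dpm : DpmRowStatement := by
  intro hR N m E δ
  obtain ⟨a, ha⟩ : ∃ a, a = N * (m + 1) * δ * E := ⟨_, rfl⟩
  obtain ⟨D, hD⟩ : ∃ D, D = E ^ N * (a + 1) ^ m := ⟨_, rfl⟩
  refine ⟨D, ?_⟩
  intro c g hg P hP
  have hdeg : ∀ α : Fin (m + 1) → Fin (D + 1),
      (∏ i, P i ^ (α i : ℕ)).totalDegree ≤ (m + 1) * D * δ := by
    intro α
    refine (MvPolynomial.totalDegree_finsetProd _ _).trans ?_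
    have h1 : ∀ i ∈ (Finset.univ : Finset (Fin (m + 1))),
        (P i ^ (α i : ℕ)).totalDegree ≤ D * δ := by
      intro i _
      refine (MvPolynomial.totalDegree_pow _ _).trans ?_
      exact Nat.mul_le_mul (Nat.lt_succ_iff.mp (α i).isLt) (hP i)
    refine (Finset.sum_le_sum h1).trans ?_
    rw [Finset.sum_const, Finset.card_univ, Fintype.card_fin, smul_eq_mul, mul_assoc]
  have hcard : E ^ N * (N * ((m + 1) * D * δ) * E + 1) ^ m <
      Fintype.card (Fin (m + 1) → Fin (D + 1)) := by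
    rw [Fintype.card_fun, Fintype.card_fin, Fintype.card_fin]
    have h1 : N * ((m + 1) * D * δ) * E + 1 ≤ (a + 1) * (D + 1) := by
      have h2 : N * ((m + 1) * D * δ) * E = a * D := by rw [ha]; ring
      rw [h2]
      nlinarith [Nat.zero_le a, Nat.zero_le D]
    have h3 : E ^ N * (N * ((m + 1) * D * δ) * E + 1) ^ m ≤ D * (D + 1) ^ m := by
      calc E ^ N * (N * ((m + 1) * D * δ) * E + 1) ^ m
          ≤ E ^ N * ((a + 1) * (D + 1)) ^ m :=
            Nat.mul_le_mul_left _ (Nat.pow_le_pow_left h1 m)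
        _ = D * (D + 1) ^ m := by
            rw [mul_pow, ← mul_assoc, ← hD]
    refine lt_of_le_of_lt h3 ?_
    rw [pow_succ, mul_comm ((D + 1) ^ m)]
    exact Nat.mul_lt_mul_of_pos_right (Nat.lt_succ_self D) (by positivity)
  obtain ⟨k, hk, hk2⟩ := hR N m c E ((m + 1) * D * δ) g hg
    (Fin (m + 1) → Fin (D + 1)) (fun α => ∏ i, P i ^ (α i : ℕ)) hdeg hcard
  refine ⟨k, hk, ?_⟩
  intro O _ _ x h1 h2
  have h3 := hk2 O x h1 h2
  rw [← h3]
  refine Finset.sum_congr rfl fun α _ => ?_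
  congr 1
  unfold ev1
  rw [MvPolynomial.eval₂_prod]
  refine Finset.prod_congr rfl fun i _ => ?_
  rw [MvPolynomial.eval₂_pow]

end Pool.Agent.LRG.H81
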